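import Mathlib

set_option autoImplicit false
open Classical

namespace Pool.Agent.H107R3.Star

variable {n : ℕ}

/-- `T` is obtained from `S` by adding one element larger than all elements of `S`. -/
def child (S T : Finset (Fin (n+2))) : Prop :=
  ∃ m : Fin (n+2), m ∉ S ∧ (∀ a ∈ S, a < m) ∧ T = insert m S

lemma child_sup {S T : Finset (Fin (n+2))} (h : child S T) :
    T = insert (T.sup id) S ∧ (T.sup id) ∉ S ∧ (∀ a ∈ S, a < T.sup id) := by
  obtain ⟨m, hm, hlt, rfl⟩ := h
  have : (insert m S).sup id = m := by
    rw [Finset.sup_insert]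
    apply sup_eq_left.mpr
    apply Finset.sup_le
    intro b hb
    exact (hlt b hb).le
  rw [this]
  exact ⟨rfl, hm, hlt⟩

lemma child_parent {S T : Finset (Fin (n+2))} (h : child S T) :
    S = T.erase (T.sup id) := by
  obtain ⟨h1, h2, _⟩ := child_sup h
  conv_rhs => rw [h1]
  have h3 : (insert (T.sup id) S).sup id = T.sup id := by rw [← h1]
  rw [h3, Finset.erase_insert h2]

lemma sup_mem {S : Finset (Fin (n+2))} (h : S.Nonempty) : S.sup id ∈ S := by
  obtain ⟨i, hi, h2⟩ := Finset.exists_mem_eq_sup S h id
  rw [h2]; exact hi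

lemma le_sup' {S : Finset (Fin (n+2))} {a : Fin (n+2)} (h : a ∈ S) : a ≤ S.sup id :=
  Finset.le_sup (f := id) h

theorem spectral (H : SimpleGraph (Fin (n+2))) (f : Equiv.Perm (Fin (n+2)))
    (P : Finset (Finset (Fin (n+2))))
    (hP : ∀ S, S ∈ P ↔ ((0 : Fin (n+2)) ∈ S ∧ ∀ a ∈ S, ∀ b ∈ S, a < b →
      (∀ c ∈ S, ¬ (a < c ∧ c < b)) → H.Adj (f a) (f b)))
    (r : Fin (n+2) → ℝ) (hr : ∀ m, 0 < r m) (L : ℝ)
    (h0 : (∑ m, (if (0 : Fin (n+2)) < m ∧ H.Adj (f 0) (f m) then r m else 0)) ≤ L)
    (h1 : ∀ k, k ≠ 0 → 1 / r k + (∑ m, (if k < m ∧ H.Adj (f k) (f m) then r m else 0)) ≤ L)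
    (x : Finset (Fin (n+2)) → ℝ) :
    (∑ S ∈ P, ∑ T ∈ P, (if child S T ∨ child T S then x S * x T else 0))
      ≤ L * ∑ S ∈ P, x S ^ 2 := by
  set M : Finset (Fin (n+2)) → Fin (n+2) := fun S => S.sup id with hM
  set A : Finset (Fin (n+2)) → Finset (Fin (n+2)) → ℝ := fun S T =>
    if child S T then (r (M T) * x S ^ 2 + x T ^ 2 / r (M T)) / 2 else 0 with hA
  have hAnn : ∀ S T, 0 ≤ A S T := by
    intro S T
    simp only [hA]
    split_ifs
    · have := hr (M T)
      positivity
    · exact le_refl _
  have hamgm : ∀ (c a b : ℝ), 0 < c → a * b ≤ (c * a ^ 2 + b ^ 2 / c) / 2 := by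
    intro c a b hc
    have h2 : 0 ≤ (c * a - b) ^ 2 / c := by positivity
    have h3 : (c * a - b) ^ 2 / c = c * a ^ 2 + b ^ 2 / c - 2 * (a * b) := by
      field_simp
      ring
    linarith
  have hstep1 : ∀ S T, (if child S T ∨ child T S then x S * x T else 0) ≤ A S T + A T S := by
    intro S T
    split_ifs with h
    · rcases h with h | h
      · have e1 : A S T = (r (M T) * x S ^ 2 + x T ^ 2 / r (M T)) / 2 := by
          simp only [hA, if_pos h]
        have := hamgm (r (M T)) (x S) (x T) (hr _)
        have := hAnn T S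
        linarith
      · have e1 : A T S = (r (M S) * x T ^ 2 + x S ^ 2 / r (M S)) / 2 := by
          simp only [hA, if_pos h]
        have := hamgm (r (M S)) (x T) (x S) (hr _)
        have := hAnn S T
        linarith [mul_comm (x S) (x T)]
    · have := hAnn T S
      have := hAnn S T
      linarith
  have hsum1 : (∑ S ∈ P, ∑ T ∈ P, (if child S T ∨ child T S then x S * x T else 0))
      ≤ 2 * ∑ S ∈ P, ∑ T ∈ P, A S T := by
    calc (∑ S ∈ P, ∑ T ∈ P, (if child S T ∨ child T S then x S * x T else 0))
        ≤ ∑ S ∈ P, ∑ T ∈ P, (A S T + A T S) :=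
          Finset.sum_le_sum fun S _ => Finset.sum_le_sum fun T _ => hstep1 S T
      _ = (∑ S ∈ P, ∑ T ∈ P, A S T) + ∑ S ∈ P, ∑ T ∈ P, A T S := by
          simp only [Finset.sum_add_distrib]
      _ = 2 * ∑ S ∈ P, ∑ T ∈ P, A S T := by
          rw [Finset.sum_comm (f := fun S T => A T S)]
          ring
  have hsum2 : 2 * ∑ S ∈ P, ∑ T ∈ P, A S T =
      ∑ S ∈ P, x S ^ 2 * ((∑ T ∈ P, if child S T then r (M T) else 0)
        + (∑ T ∈ P, if child T S then 1 / r (M S) else 0)) := by
    have e1 : ∀ S T, 2 * A S T = x S ^ 2 * (if child S T then r (M T) else 0) +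
        x T ^ 2 * (if child S T then 1 / r (M T) else 0) := by
      intro S T
      simp only [hA]
      split_ifs
      · ring
      · ring
    calc 2 * ∑ S ∈ P, ∑ T ∈ P, A S T = ∑ S ∈ P, ∑ T ∈ P, 2 * A S T := by
          simp only [Finset.mul_sum]
      _ = ∑ S ∈ P, ∑ T ∈ P, (x S ^ 2 * (if child S T then r (M T) else 0)) +
          ∑ S ∈ P, ∑ T ∈ P, (x T ^ 2 * (if child S T then 1 / r (M T) else 0)) := by
          simp only [e1, Finset.sum_add_distrib]
      _ = ∑ S ∈ P, ∑ T ∈ P, (x S ^ 2 * (if child S T then r (M T) else 0)) +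
          ∑ S ∈ P, ∑ T ∈ P, (x S ^ 2 * (if child T S then 1 / r (M S) else 0)) := by
          congr 1
          rw [Finset.sum_comm]
      _ = _ := by
          simp only [← Finset.mul_sum, ← Finset.sum_add_distrib, ← mul_add]
  have hcoef : ∀ S ∈ P, ((∑ T ∈ P, if child S T then r (M T) else 0)
        + (∑ T ∈ P, if child T S then 1 / r (M S) else 0)) ≤ L := by
    intro S hS
    have hS0 : (0 : Fin (n+2)) ∈ S := ((hP S).1 hS).1
    have hSne : S.Nonempty := ⟨0, hS0⟩
    -- first sum
    have hfirst : (∑ T ∈ P, if child S T then r (M T) else 0) ≤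
        ∑ m, (if M S < m ∧ H.Adj (f (M S)) (f m) then r m else 0) := by
      rw [← Finset.sum_filter, ← Finset.sum_filter]
      have hinj : Set.InjOn M (P.filter (fun T => child S T) : Finset _) := by
        intro T hT T' hT' hTT
        have h1 := (child_sup (Finset.mem_filter.1 (Finset.mem_coe.1 hT)).2).1
        have h2 := (child_sup (Finset.mem_filter.1 (Finset.mem_coe.1 hT')).2).1
        rw [h1, h2]
        simp only [hM] at hTT
        rw [hTT]
      rw [← Finset.sum_image (f := r) hinj]
      apply Finset.sum_le_sum_of_subset_of_nonneg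
      · intro m hm
        rw [Finset.mem_image] at hm
        obtain ⟨T, hT, rfl⟩ := hm
        obtain ⟨hTP, hTc⟩ := Finset.mem_filter.1 hT
        obtain ⟨g1, g2, g3⟩ := child_sup hTc
        rw [Finset.mem_filter]
        refine ⟨Finset.mem_univ _, g3 _ (sup_mem hSne), ?_⟩
        have hTP' := ((hP T).1 hTP).2
        apply hTP' (M S) _ (M T) _ (g3 _ (sup_mem hSne))
        · intro c hc hcc
          rw [g1, Finset.mem_insert] at hc
          rcases hc with hc | hc
          · rw [hc] at hcc
            exact lt_irrefl _ hcc.2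
          · exact absurd hcc.1 (not_lt.2 (le_sup' hc))
        · rw [g1]; exact Finset.mem_insert_of_mem (sup_mem hSne)
        · have : M T ∈ T := by
            rw [g1]
            have h3 : (insert (T.sup id) S).sup id = T.sup id := by rw [← g1]
            show (insert (T.sup id) S).sup id ∈ _
            rw [h3]
            exact Finset.mem_insert_self _ _
          exact this
      · intro i _ _
        exact (hr i).le
    -- second sum
    have hsecond : (∑ T ∈ P, if child T S then 1 / r (M S) else 0) ≤
        (if S = {0} then 0 else 1 / r (M S)) := by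
      rw [← Finset.sum_filter, Finset.sum_const, nsmul_eq_mul]
      have hrpos : 0 < 1 / r (M S) := by
        have := hr (M S)
        positivity
      split_ifs with hS1
      · have : P.filter (fun T => child T S) = ∅ := by
          apply Finset.filter_eq_empty_iff.2
          intro T hT hc
          obtain ⟨m, hm, hlt, hins⟩ := hc
          have hT0 : (0 : Fin (n+2)) ∈ T := ((hP T).1 hT).1
          have : m ∈ S := by rw [hins]; exact Finset.mem_insert_self _ _
          rw [hS1, Finset.mem_singleton] at this
          rw [this] at hm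
          exact hm hT0
        rw [this]
        simp
      · have : (P.filter (fun T => child T S)).card ≤ 1 := by
          apply Finset.card_le_one.2
          intro T hT T' hT'
          rw [child_parent (Finset.mem_filter.1 hT).2, child_parent (Finset.mem_filter.1 hT').2]
        have h3 : ((P.filter (fun T => child T S)).card : ℝ) ≤ 1 := by exact_mod_cast this
        calc ((P.filter (fun T => child T S)).card : ℝ) * (1 / r (M S))
            ≤ 1 * (1 / r (M S)) := mul_le_mul_of_nonneg_right h3 hrpos.le
          _ = 1 / r (M S) := one_mul _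
    by_cases hS1 : S = {0}
    · rw [if_pos hS1] at hsecond
      have hM0 : M S = 0 := by
        rw [hS1]
        simp [hM]
      rw [hM0] at hfirst
      linarith
    · rw [if_neg hS1] at hsecond
      have hM0 : M S ≠ 0 := by
        intro h
        apply hS1
        ext a
        rw [Finset.mem_singleton]
        constructor
        · intro ha
          have := le_sup' ha
          have h5 : a ≤ 0 := by
            have h6 : M S = S.sup id := rfl
            rw [← h6, h] at this
            exact this
          exact Fin.le_zero_iff.1 h5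
        · rintro rfl
          exact hS0
      have := h1 _ hM0
      linarith
  calc (∑ S ∈ P, ∑ T ∈ P, (if child S T ∨ child T S then x S * x T else 0))
      ≤ 2 * ∑ S ∈ P, ∑ T ∈ P, A S T := hsum1
    _ = _ := hsum2
    _ ≤ ∑ S ∈ P, x S ^ 2 * L := Finset.sum_le_sum fun S hS =>
        mul_le_mul_of_nonneg_left (hcoef S hS) (sq_nonneg _)
    _ = L * ∑ S ∈ P, x S ^ 2 := by
        rw [← Finset.sum_mul, mul_comm]

end Pool.Agent.H107R3.Star
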