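import Mathlib
import Pool.Agent.H107R3.StarSpectral

set_option autoImplicit false
open Classical

namespace Pool.Agent.H107R3.Star

variable {n : ℕ}

lemma earlier_nbr (H : SimpleGraph (Fin (n+2))) (f : Equiv.Perm (Fin (n+2)))
    (hf : ∀ k : Fin (n+2), (H.induce {v | f.symm v ≤ k}).Connected) :
    ∀ v, v ≠ f 0 → ∃ u, H.Adj u v ∧ f.symm u < f.symm v := by
  intro v hv
  have hz : f 0 ∈ {u | f.symm u ≤ f.symm v} := by simp
  have hvv : v ∈ {u | f.symm u ≤ f.symm v} := by simp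
  obtain ⟨p⟩ := (hf (f.symm v)).preconnected ⟨v, hvv⟩ ⟨f 0, hz⟩
  cases p with
  | nil => exact absurd rfl hv
  | @cons _ w _ h q =>
    have hadj : H.Adj v w.1 := h
    refine ⟨w.1, hadj.symm, lt_of_le_of_ne w.2 ?_⟩
    intro he
    have := f.symm.injective he
    rw [this] at hadj
    exact H.loopless.irrefl _ hadj

theorem lam_bounds (H : SimpleGraph (Fin (n+2))) (f : Equiv.Perm (Fin (n+2)))
    (P : Finset (Finset (Fin (n+2))))
    (hP : ∀ S, S ∈ P ↔ ((0 : Fin (n+2)) ∈ S ∧ ∀ a ∈ S, ∀ b ∈ S, a < b →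
      (∀ c ∈ S, ¬ (a < c ∧ c < b)) → H.Adj (f a) (f b)))
    (hadj : H.Adj (f 0) (f 1))
    (r : Fin (n+2) → ℝ) (hr : ∀ m, 0 < r m) (L : ℝ) (hL : 0 < L)
    (h0 : (∑ m, (if (0 : Fin (n+2)) < m ∧ H.Adj (f 0) (f m) then r m else 0)) ≤ L)
    (h1 : ∀ k, k ≠ 0 → 1 / r k + (∑ m, (if k < m ∧ H.Adj (f k) (f m) then r m else 0)) ≤ L) :
    0 < sSup {q : ℝ | ∃ x : Finset (Fin (n+2)) → ℝ, (∑ S ∈ P, x S ^ 2) = 1 ∧
                q = ∑ S ∈ P, ∑ T ∈ P, (if child S T ∨ child T S then x S * x T else 0)} ∧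
    sSup {q : ℝ | ∃ x : Finset (Fin (n+2)) → ℝ, (∑ S ∈ P, x S ^ 2) = 1 ∧
                q = ∑ S ∈ P, ∑ T ∈ P, (if child S T ∨ child T S then x S * x T else 0)} ≤ L := by
  have hub : ∀ q ∈ {q : ℝ | ∃ x : Finset (Fin (n+2)) → ℝ, (∑ S ∈ P, x S ^ 2) = 1 ∧
                q = ∑ S ∈ P, ∑ T ∈ P, (if child S T ∨ child T S then x S * x T else 0)}, q ≤ L := by
    rintro q ⟨x, hx, rfl⟩
    have := spectral H f P hP r hr L h0 h1 x
    rw [hx, mul_one] at this
    exact this
  refine ⟨?_, Real.sSup_le hub hL.le⟩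
  have hS0 : ({0} : Finset (Fin (n+2))) ∈ P := by
    rw [hP]
    refine ⟨Finset.mem_singleton_self _, ?_⟩
    intro a ha b hb hab
    rw [Finset.mem_singleton] at ha hb
    rw [ha, hb] at hab
    exact absurd hab (lt_irrefl _)
  have h01 : (0 : Fin (n+2)) < 1 := by
    rw [Fin.lt_def]
    simp
  have hS1 : ({0, 1} : Finset (Fin (n+2))) ∈ P := by
    rw [hP]
    refine ⟨by simp, ?_⟩
    intro a ha b hb hab _
    rw [Finset.mem_insert, Finset.mem_singleton] at ha hb
    rcases ha with rfl | rfl <;> rcases hb with rfl | rfl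
    · exact absurd hab (lt_irrefl _)
    · exact hadj
    · exact absurd hab (not_lt.2 h01.le)
    · exact absurd hab (lt_irrefl _)
  have hne : ({0} : Finset (Fin (n+2))) ≠ {0, 1} := by
    intro h
    have : (1 : Fin (n+2)) ∈ ({0} : Finset (Fin (n+2))) := by rw [h]; simp
    rw [Finset.mem_singleton] at this
    exact h01.ne' this
  let x : Finset (Fin (n+2)) → ℝ := fun S => if S = {0} then 3/5 else if S = {0,1} then 4/5 else 0
  have hxnn : ∀ S, 0 ≤ x S := by
    intro S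
    simp only [x]
    split_ifs <;> norm_num
  have hx2 : ∀ S, x S ^ 2 = (if S = {0} then (9/25 : ℝ) else 0) + (if S = {0,1} then (16/25:ℝ) else 0) := by
    intro S
    simp only [x]
    split_ifs with h1 h2
    · exact absurd (h1.symm.trans h2) hne
    · norm_num
    · norm_num
    · norm_num
  have hxs : (∑ S ∈ P, x S ^ 2) = 1 := by
    simp only [hx2, Finset.sum_add_distrib]
    rw [Finset.sum_ite_eq', Finset.sum_ite_eq', if_pos hS0, if_pos hS1]
    norm_num
  have hq : (12/25 : ℝ) ≤ ∑ S ∈ P, ∑ T ∈ P, (if child S T ∨ child T S then x S * x T else 0) := by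
    have hnn : ∀ S T, 0 ≤ (if child S T ∨ child T S then x S * x T else 0) := by
      intro S T
      split_ifs
      · exact mul_nonneg (hxnn _) (hxnn _)
      · exact le_refl _
    have e1 : (∑ T ∈ P, (if child {0} T ∨ child T {0} then x {0} * x T else 0)) ≤
        ∑ S ∈ P, ∑ T ∈ P, (if child S T ∨ child T S then x S * x T else 0) :=
      Finset.single_le_sum (f := fun S => ∑ T ∈ P, (if child S T ∨ child T S then x S * x T else 0))
        (fun S _ => Finset.sum_nonneg fun T _ => hnn S T) hS0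
    have e2 : (if child ({0} : Finset (Fin (n+2))) {0,1} ∨ child {0,1} ({0} : Finset (Fin (n+2)))
          then x {0} * x {0,1} else 0) ≤
        (∑ T ∈ P, (if child {0} T ∨ child T {0} then x {0} * x T else 0)) :=
      Finset.single_le_sum (f := fun T => (if child {0} T ∨ child T {0} then x {0} * x T else 0))
        (fun T _ => hnn _ T) hS1
    have e3 : child ({0} : Finset (Fin (n+2))) {0,1} := by
      refine ⟨1, ?_, ?_, ?_⟩
      · rw [Finset.mem_singleton]; exact h01.ne'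
      · intro a ha
        rw [Finset.mem_singleton] at ha
        rw [ha]; exact h01
      · rw [Finset.pair_comm]
    rw [if_pos (Or.inl e3)] at e2
    have e4 : x {0} * x {0,1} = 12/25 := by
      simp only [x, if_true]
      rw [if_neg hne.symm]
      norm_num
    linarith
  have hmem : (∑ S ∈ P, ∑ T ∈ P, (if child S T ∨ child T S then x S * x T else 0)) ∈
    {q : ℝ | ∃ x : Finset (Fin (n+2)) → ℝ, (∑ S ∈ P, x S ^ 2) = 1 ∧
                q = ∑ S ∈ P, ∑ T ∈ P, (if child S T ∨ child T S then x S * x T else 0)} :=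
    ⟨x, hxs, rfl⟩
  have := le_csSup ⟨L, hub⟩ hmem
  linarith

theorem B_le (H : SimpleGraph (Fin (n+2))) (L : ℝ) (hL : 0 < L)
    (hL1 : 0 ≤ 1 - (L ^ 2)⁻¹)
    (hρ : ∀ f : Equiv.Perm (Fin (n+2)), (∀ v, v ≠ f 0 → ∃ u, H.Adj u v ∧ f.symm u < f.symm v) →
      ∃ r : Fin (n+2) → ℝ, (∀ m, 0 < r m) ∧
        ((∑ m, (if (0 : Fin (n+2)) < m ∧ H.Adj (f 0) (f m) then r m else 0)) ≤ L) ∧
        (∀ k, k ≠ 0 → 1 / r k + (∑ m, (if k < m ∧ H.Adj (f k) (f m) then r m else 0)) ≤ L)) :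
    sSup {β : ℝ | ∃ f : Equiv.Perm (Fin (n+2)),
        (∀ k : Fin (n+2), (H.induce {v | f.symm v ≤ k}).Connected) ∧
        ∃ P : Finset (Finset (Fin (n+2))),
          P = Finset.univ.filter (fun S : Finset (Fin (n+2)) => (0 : Fin (n+2)) ∈ S ∧
                ∀ a ∈ S, ∀ b ∈ S, a < b → (∀ c ∈ S, ¬ (a < c ∧ c < b)) → H.Adj (f a) (f b)) ∧
          β = 1 - ((sSup {q : ℝ | ∃ x : Finset (Fin (n+2)) → ℝ,
                (∑ S ∈ P, x S ^ 2) = 1 ∧
                q = ∑ S ∈ P, ∑ T ∈ P,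
                  (if ((∃ m : Fin (n+2), m ∉ S ∧ (∀ a ∈ S, a < m) ∧ T = insert m S) ∨
                       (∃ m : Fin (n+2), m ∉ T ∧ (∀ a ∈ T, a < m) ∧ S = insert m T))
                   then x S * x T else 0)}) ^ 2)⁻¹} ≤ 1 - (L ^ 2)⁻¹ := by
  apply Real.sSup_le _ hL1
  rintro β ⟨f, hf, P, hPe, rfl⟩
  have hP : ∀ S, S ∈ P ↔ ((0 : Fin (n+2)) ∈ S ∧ ∀ a ∈ S, ∀ b ∈ S, a < b →
      (∀ c ∈ S, ¬ (a < c ∧ c < b)) → H.Adj (f a) (f b)) := by
    intro S
    rw [hPe, Finset.mem_filter]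
    simp only [Finset.mem_univ, true_and]
  have hE := earlier_nbr H f hf
  obtain ⟨r, hr, h0, h1⟩ := hρ f hE
  have hadj : H.Adj (f 0) (f 1) := by
    have h01 : (1 : Fin (n+2)) ≠ 0 := by
      intro h
      have := congrArg Fin.val h
      simp at this
    obtain ⟨u, hu1, hu2⟩ := hE (f 1) (fun h => h01 (f.injective h))
    rw [Equiv.symm_apply_apply] at hu2
    have : f.symm u = 0 := by
      rw [Fin.lt_def] at hu2
      apply Fin.ext
      simp at hu2 ⊢
      exact hu2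
    have hu3 : u = f 0 := by rw [← this, Equiv.apply_symm_apply]
    rw [hu3] at hu1
    exact hu1
  have key := lam_bounds H f P hP hadj r hr L hL h0 h1
  have hset : {q : ℝ | ∃ x : Finset (Fin (n+2)) → ℝ,
                (∑ S ∈ P, x S ^ 2) = 1 ∧
                q = ∑ S ∈ P, ∑ T ∈ P,
                  (if ((∃ m : Fin (n+2), m ∉ S ∧ (∀ a ∈ S, a < m) ∧ T = insert m S) ∨
                       (∃ m : Fin (n+2), m ∉ T ∧ (∀ a ∈ T, a < m) ∧ S = insert m T))
                   then x S * x T else 0)} =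
      {q : ℝ | ∃ x : Finset (Fin (n+2)) → ℝ, (∑ S ∈ P, x S ^ 2) = 1 ∧
                q = ∑ S ∈ P, ∑ T ∈ P, (if child S T ∨ child T S then x S * x T else 0)} := by
    ext q
    constructor
    · rintro ⟨x, hx, hq⟩
      refine ⟨x, hx, hq.trans ?_⟩
      apply Finset.sum_congr rfl
      intro S _
      apply Finset.sum_congr rfl
      intro T _
      unfold child
      congr
    · rintro ⟨x, hx, hq⟩
      refine ⟨x, hx, hq.trans ?_⟩
      apply Finset.sum_congr rfl
      intro S _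
      apply Finset.sum_congr rfl
      intro T _
      unfold child
      congr
  rw [hset]
  obtain ⟨k1, k2⟩ := key
  have : (L ^ 2)⁻¹ ≤ ((sSup {q : ℝ | ∃ x : Finset (Fin (n+2)) → ℝ, (∑ S ∈ P, x S ^ 2) = 1 ∧
                q = ∑ S ∈ P, ∑ T ∈ P, (if child S T ∨ child T S then x S * x T else 0)}) ^ 2)⁻¹ := by
    apply inv_anti₀
    · positivity
    · exact pow_le_pow_left₀ k1.le k2 2
  linarith

end Pool.Agent.H107R3.Star
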