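import Mathlib

set_option autoImplicit false

namespace Pool.Agent.H107R3.Star

noncomputable def g0 (c a b x y : ℕ) : ℝ :=
  if (a < c ∧ b < c) ∨ (x < c ∧ y < c) then 482/1000 else 72/100

noncomputable def g1 (c a b : ℕ) : ℝ :=
  if c < a then (if a < b then 124/100 else 675/1000) else 1

lemma g0_pos (c a b x y : ℕ) : 0 < g0 c a b x y := by
  unfold g0; split_ifs <;> norm_num

lemma g1_pos (c a b : ℕ) : 0 < g1 c a b := by
  unfold g1; split_ifs <;> norm_num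

lemma g0_symm (c a b x y : ℕ) : g0 c a b x y = g0 c x y a b := by
  unfold g0; simp only [or_comm]

lemma g0_symm' (c a b x y : ℕ) : g0 c a b x y = g0 c b a x y := by
  unfold g0; simp only [and_comm]

lemma center_min (c a b x y : ℕ) (h1 : c < a) (h2 : c < b) (h3 : c < x) (h4 : c < y)
    (hab : a ≠ b) (hxy : x ≠ y) :
    g1 c a b + g1 c b a + g1 c x y + g1 c y x ≤ 399/100 := by
  unfold g1
  rw [if_pos h1, if_pos h2, if_pos h3, if_pos h4]
  split_ifs <;> first | omega | norm_num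

lemma center_nonmin (c a b x y : ℕ) (hca : c ≠ a) (hcb : c ≠ b) (hcx : c ≠ x) (hcy : c ≠ y)
    (hab : a ≠ b) (hxy : x ≠ y)
    (hc : a < c ∨ b < c ∨ x < c ∨ y < c)
    (ha : (a < c ∧ a < b ∧ a < x ∧ a < y) ∨ c < a ∨ b < a)
    (hb : (b < c ∧ b < a ∧ b < x ∧ b < y) ∨ c < b ∨ a < b)
    (hx : (x < c ∧ x < a ∧ x < b ∧ x < y) ∨ c < x ∨ y < x)
    (hy : (y < c ∧ y < a ∧ y < b ∧ y < x) ∨ c < y ∨ x < y) :
    1 / g0 c a b x y + ((if c < a then g1 c a b else 0) + (if c < b then g1 c b a else 0)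
      + (if c < x then g1 c x y else 0) + (if c < y then g1 c y x else 0)) ≤ 399/100 := by
  unfold g0 g1
  split_ifs <;> first | omega | norm_num

lemma outer_min (c a b x y : ℕ) (hcb : c ≠ b) (hxy : x ≠ y) (hcx : c ≠ x) (hcy : c ≠ y)
    (h1 : a < c) (h2 : a < b) (h3 : a < x) (h4 : a < y)
    (hb : (b < c ∧ b < a ∧ b < x ∧ b < y) ∨ c < b ∨ a < b)
    (hx : (x < c ∧ x < a ∧ x < b ∧ x < y) ∨ c < x ∨ y < x)
    (hy : (y < c ∧ y < a ∧ y < b ∧ y < x) ∨ c < y ∨ x < y) :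
    g0 c a b x y + g1 c b a + 1000/399 ≤ 399/100 := by
  unfold g0 g1
  split_ifs <;> first | omega | norm_num

lemma outer_nonmin (c a b x y : ℕ) (hca : c ≠ a) (hcb : c ≠ b) (hcx : c ≠ x) (hcy : c ≠ y)
    (hab : a ≠ b) (hxy : x ≠ y)
    (ha : c < a ∨ b < a)
    (hb : (b < c ∧ b < a ∧ b < x ∧ b < y) ∨ c < b ∨ a < b)
    (hx : (x < c ∧ x < a ∧ x < b ∧ x < y) ∨ c < x ∨ y < x)
    (hy : (y < c ∧ y < a ∧ y < b ∧ y < x) ∨ c < y ∨ x < y) :
    1 / g1 c a b + ((if a < c then g0 c a b x y else 0) + (if a < b then g1 c b a else 0)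
      + 1000/399) ≤ 399/100 := by
  unfold g0 g1
  split_ifs <;> first | omega | norm_num

end Pool.Agent.H107R3.Star
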