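import Mathlib
import Pool.Agent.H107R3.StarCore

set_option autoImplicit false
open Classical

namespace Pool.Agent.H107R3.Star

/-- Vertices: `inl 0` the centre, `inl 1, inl 2` and `inl 3, inl 4` the outer vertices of the two triangles,
`inr (j, i)` the `i`-th leaf at the outer vertex `inl j.succ`. -/
abbrev V' := Fin 5 ⊕ (Fin 4 × Fin 10)

def coreAdj (a b : Fin 5) : Prop :=
  (a = 0 ∧ b ≠ 0) ∨ (a ≠ 0 ∧ b = 0) ∨ (a = 1 ∧ b = 2) ∨ (a = 2 ∧ b = 1) ∨ (a = 3 ∧ b = 4) ∨ (a = 4 ∧ b = 3)

instance (a b : Fin 5) : Decidable (coreAdj a b) := by unfold coreAdj; infer_instance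

def adj' : V' → V' → Prop
  | .inl a, .inl b => coreAdj a b
  | .inl a, .inr q => q.1.succ = a
  | .inr q, .inl a => q.1.succ = a
  | .inr _, .inr _ => False

lemma coreAdj_symm : ∀ a b : Fin 5, coreAdj a b → coreAdj b a := by decide

lemma coreAdj_irrefl : ∀ a : Fin 5, ¬ coreAdj a a := by decide

def H' : SimpleGraph V' where
  Adj := adj'
  symm := ⟨by
    intro u v h
    rcases u with a | q <;> rcases v with b | q' <;> simp only [adj'] at h ⊢
    · exact coreAdj_symm _ _ h
    · exact h
    · exact h⟩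
  loopless := ⟨by
    intro u h
    rcases u with a | q <;> simp only [adj'] at h
    exact coreAdj_irrefl _ h⟩

lemma card_leaf (k : Fin 5) : (Finset.univ.filter (fun q : Fin 4 × Fin 10 => q.1.succ = k)).card =
    if k = 0 then 0 else 10 := by
  revert k; decide

lemma leaf_sum (k : Fin 5) (pos : V' → ℕ) :
    (∑ q : Fin 4 × Fin 10, (if pos (.inl k) < pos (.inr q) ∧ q.1.succ = k then (100/399 : ℝ) else 0)) ≤
      (if k = 0 then 0 else 1000/399) := by
  rw [← Finset.sum_filter, Finset.sum_const, nsmul_eq_mul]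
  have h1 : (Finset.univ.filter (fun q : Fin 4 × Fin 10 => pos (.inl k) < pos (.inr q) ∧ q.1.succ = k)).card ≤
      if k = 0 then 0 else 10 := by
    rw [← card_leaf k]
    apply Finset.card_le_card
    intro q hq
    rw [Finset.mem_filter] at hq ⊢
    exact ⟨hq.1, hq.2.2⟩
  split_ifs at h1 ⊢
  · have : (Finset.univ.filter (fun q : Fin 4 × Fin 10 => pos (.inl k) < pos (.inr q) ∧ q.1.succ = k)).card = 0 := by omega
    rw [this]; norm_num
  · have h2 : ((Finset.univ.filter (fun q : Fin 4 × Fin 10 => pos (.inl k) < pos (.inr q) ∧ q.1.succ = k)).card : ℝ) ≤ 10 := by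
      exact_mod_cast h1
    linarith

lemma leaf_sum' (k : Fin 5) (pos : V' → ℕ) (q0 : Fin 4 × Fin 10) (hq0 : q0.1.succ = k)
    (h0 : pos (.inr q0) = 0) :
    (∑ q : Fin 4 × Fin 10, (if pos (.inl k) < pos (.inr q) ∧ q.1.succ = k then (100/399 : ℝ) else 0)) ≤
      900/399 := by
  rw [← Finset.sum_filter, Finset.sum_const, nsmul_eq_mul]
  have h1 : (Finset.univ.filter (fun q : Fin 4 × Fin 10 => pos (.inl k) < pos (.inr q) ∧ q.1.succ = k)).card ≤ 9 := by
    have e : 9 = ((Finset.univ.filter (fun q : Fin 4 × Fin 10 => q.1.succ = k)).erase q0).card := by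
      rw [Finset.card_erase_of_mem, card_leaf k, if_neg]
      · rw [← hq0]; exact Fin.succ_ne_zero _
      · rw [Finset.mem_filter]; exact ⟨Finset.mem_univ _, hq0⟩
    rw [e]
    apply Finset.card_le_card
    intro q hq
    rw [Finset.mem_filter] at hq
    rw [Finset.mem_erase, Finset.mem_filter]
    refine ⟨?_, hq.1, hq.2.2⟩
    rintro rfl
    rw [h0] at hq
    omega
  have h2 : ((Finset.univ.filter (fun q : Fin 4 × Fin 10 => pos (.inl k) < pos (.inr q) ∧ q.1.succ = k)).card : ℝ) ≤ 9 := by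
      exact_mod_cast h1
  linarith

/-- the weights on the core -/
noncomputable def gg (p : Fin 5 → ℕ) (k : Fin 5) : ℝ :=
  if k = 0 then g0 (p 0) (p 1) (p 2) (p 3) (p 4)
  else if k = 1 then g1 (p 0) (p 1) (p 2)
  else if k = 2 then g1 (p 0) (p 2) (p 1)
  else if k = 3 then g1 (p 0) (p 3) (p 4)
  else g1 (p 0) (p 4) (p 3)

lemma gg_pos (p : Fin 5 → ℕ) (k : Fin 5) : 0 < gg p k := by
  unfold gg
  split_ifs
  · exact g0_pos _ _ _ _ _
  all_goals exact g1_pos _ _ _

lemma core_cond (p : Fin 5 → ℕ) (hinj : Function.Injective p) (r : Fin 5)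
    (hmin : ∀ k, k ≠ r → p r < p k)
    (hE : ∀ k, k ≠ r → ∃ k', coreAdj k' k ∧ p k' < p k) :
    ((∑ k : Fin 5, (if coreAdj r k then gg p k else 0)) + (if r = 0 then 0 else 1000/399) ≤ 399/100) ∧
    ∀ k, k ≠ r → 1 / gg p k + ((∑ k' : Fin 5, (if p k < p k' ∧ coreAdj k k' then gg p k' else 0))
      + (if k = 0 then 0 else 1000/399)) ≤ 399/100 := by
  have d01 : p 0 ≠ p 1 := fun h => absurd (hinj h) (by decide)
  have d02 : p 0 ≠ p 2 := fun h => absurd (hinj h) (by decide)
  have d03 : p 0 ≠ p 3 := fun h => absurd (hinj h) (by decide)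
  have d04 : p 0 ≠ p 4 := fun h => absurd (hinj h) (by decide)
  have d12 : p 1 ≠ p 2 := fun h => absurd (hinj h) (by decide)
  have d34 : p 3 ≠ p 4 := fun h => absurd (hinj h) (by decide)
  have d13 : p 1 ≠ p 3 := fun h => absurd (hinj h) (by decide)
  have d14 : p 1 ≠ p 4 := fun h => absurd (hinj h) (by decide)
  have d23 : p 2 ≠ p 3 := fun h => absurd (hinj h) (by decide)
  have d24 : p 2 ≠ p 4 := fun h => absurd (hinj h) (by decide)
  have m1 : (p 1 < p 0 ∧ p 1 < p 2 ∧ p 1 < p 3 ∧ p 1 < p 4) ∨ p 0 < p 1 ∨ p 2 < p 1 := by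
    by_cases h : (1 : Fin 5) = r
    · left
      subst h
      exact ⟨hmin 0 (by decide), hmin 2 (by decide), hmin 3 (by decide), hmin 4 (by decide)⟩
    · right
      obtain ⟨k', h1, h2⟩ := hE 1 h
      have : k' = 0 ∨ k' = 2 := by
        revert h1; clear h2; revert k'; decide
      rcases this with rfl | rfl
      · left; exact h2
      · right; exact h2
  have m2 : (p 2 < p 0 ∧ p 2 < p 1 ∧ p 2 < p 3 ∧ p 2 < p 4) ∨ p 0 < p 2 ∨ p 1 < p 2 := by
    by_cases h : (2 : Fin 5) = r
    · left
      subst h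
      exact ⟨hmin 0 (by decide), hmin 1 (by decide), hmin 3 (by decide), hmin 4 (by decide)⟩
    · right
      obtain ⟨k', h1, h2⟩ := hE 2 h
      have : k' = 0 ∨ k' = 1 := by
        revert h1; clear h2; revert k'; decide
      rcases this with rfl | rfl
      · left; exact h2
      · right; exact h2
  have m3 : (p 3 < p 0 ∧ p 3 < p 1 ∧ p 3 < p 2 ∧ p 3 < p 4) ∨ p 0 < p 3 ∨ p 4 < p 3 := by
    by_cases h : (3 : Fin 5) = r
    · left
      subst h
      exact ⟨hmin 0 (by decide), hmin 1 (by decide), hmin 2 (by decide), hmin 4 (by decide)⟩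
    · right
      obtain ⟨k', h1, h2⟩ := hE 3 h
      have : k' = 0 ∨ k' = 4 := by
        revert h1; clear h2; revert k'; decide
      rcases this with rfl | rfl
      · left; exact h2
      · right; exact h2
  have m4 : (p 4 < p 0 ∧ p 4 < p 1 ∧ p 4 < p 2 ∧ p 4 < p 3) ∨ p 0 < p 4 ∨ p 3 < p 4 := by
    by_cases h : (4 : Fin 5) = r
    · left
      subst h
      exact ⟨hmin 0 (by decide), hmin 1 (by decide), hmin 2 (by decide), hmin 3 (by decide)⟩
    · right
      obtain ⟨k', h1, h2⟩ := hE 4 h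
      have : k' = 0 ∨ k' = 3 := by
        revert h1; clear h2; revert k'; decide
      rcases this with rfl | rfl
      · left; exact h2
      · right; exact h2
  have n1 : (p 1 < p 0 ∧ p 1 < p 2 ∧ p 1 < p 3 ∧ p 1 < p 4) ∨ p 0 < p 1 ∨ p 2 < p 1 := m1
  have n3' : (p 3 < p 0 ∧ p 3 < p 4 ∧ p 3 < p 1 ∧ p 3 < p 2) ∨ p 0 < p 3 ∨ p 4 < p 3 := by
    rcases m3 with h | h
    · left; exact ⟨h.1, h.2.2.2, h.2.1, h.2.2.1⟩
    · right; exact h
  have n4' : (p 4 < p 0 ∧ p 4 < p 3 ∧ p 4 < p 1 ∧ p 4 < p 2) ∨ p 0 < p 4 ∨ p 3 < p 4 := by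
    rcases m4 with h | h
    · left; exact ⟨h.1, h.2.2.2, h.2.1, h.2.2.1⟩
    · right; exact h
  have n1' : (p 1 < p 0 ∧ p 1 < p 3 ∧ p 1 < p 4 ∧ p 1 < p 2) ∨ p 0 < p 1 ∨ p 2 < p 1 := by
    rcases m1 with h | h
    · left; exact ⟨h.1, h.2.2.1, h.2.2.2, h.2.1⟩
    · right; exact h
  have n2' : (p 2 < p 0 ∧ p 2 < p 3 ∧ p 2 < p 4 ∧ p 2 < p 1) ∨ p 0 < p 2 ∨ p 1 < p 2 := by
    rcases m2 with h | h
    · left; exact ⟨h.1, h.2.2.1, h.2.2.2, h.2.1⟩
    · right; exact h
  have G0 : gg p 0 = g0 (p 0) (p 1) (p 2) (p 3) (p 4) := by simp [gg]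
  have G1 : gg p 1 = g1 (p 0) (p 1) (p 2) := by simp [gg]
  have G2 : gg p 2 = g1 (p 0) (p 2) (p 1) := by
    unfold gg; rw [if_neg (by decide), if_neg (by decide), if_pos rfl]
  have G3 : gg p 3 = g1 (p 0) (p 3) (p 4) := by
    unfold gg; rw [if_neg (by decide), if_neg (by decide), if_neg (by decide), if_pos rfl]
  have G4 : gg p 4 = g1 (p 0) (p 4) (p 3) := by
    unfold gg; rw [if_neg (by decide), if_neg (by decide), if_neg (by decide), if_neg (by decide)]
  have A : ∀ a b : Fin 5, coreAdj a b ↔ (coreAdj a b) := fun _ _ => Iff.rfl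
  have c00 : ¬ coreAdj 0 0 := by decide
  have c01 : coreAdj 0 1 := by decide
  have c02 : coreAdj 0 2 := by decide
  have c03 : coreAdj 0 3 := by decide
  have c04 : coreAdj 0 4 := by decide
  have c10 : coreAdj 1 0 := by decide
  have c11 : ¬ coreAdj 1 1 := by decide
  have c12 : coreAdj 1 2 := by decide
  have c13 : ¬ coreAdj 1 3 := by decide
  have c14 : ¬ coreAdj 1 4 := by decide
  have c20 : coreAdj 2 0 := by decide
  have c21 : coreAdj 2 1 := by decide
  have c22 : ¬ coreAdj 2 2 := by decide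
  have c23 : ¬ coreAdj 2 3 := by decide
  have c24 : ¬ coreAdj 2 4 := by decide
  have c30 : coreAdj 3 0 := by decide
  have c31 : ¬ coreAdj 3 1 := by decide
  have c32 : ¬ coreAdj 3 2 := by decide
  have c33 : ¬ coreAdj 3 3 := by decide
  have c34 : coreAdj 3 4 := by decide
  have c40 : coreAdj 4 0 := by decide
  have c41 : ¬ coreAdj 4 1 := by decide
  have c42 : ¬ coreAdj 4 2 := by decide
  have c43 : coreAdj 4 3 := by decide
  have c44 : ¬ coreAdj 4 4 := by decide
  have e10 : ¬ ((1 : Fin 5) = 0) := by decide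
  have e20 : ¬ ((2 : Fin 5) = 0) := by decide
  have e30 : ¬ ((3 : Fin 5) = 0) := by decide
  have e40 : ¬ ((4 : Fin 5) = 0) := by decide
  constructor
  · have hr : r = 0 ∨ r = 1 ∨ r = 2 ∨ r = 3 ∨ r = 4 := by
      clear hmin hE; revert r; decide
    rcases hr with rfl | rfl | rfl | rfl | rfl
    · rw [Fin.sum_univ_five, if_neg c00, if_pos c01, if_pos c02, if_pos c03, if_pos c04, if_pos rfl,
        G1, G2, G3, G4]
      have := center_min (p 0) (p 1) (p 2) (p 3) (p 4) (hmin _ (by decide)) (hmin _ (by decide))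
        (hmin _ (by decide)) (hmin _ (by decide)) d12 d34
      linarith
    · rw [Fin.sum_univ_five, if_pos c10, if_neg c11, if_pos c12, if_neg c13, if_neg c14, if_neg e10,
        G0, G2]
      have := outer_min (p 0) (p 1) (p 2) (p 3) (p 4) d02 d34 d03 d04 (hmin _ (by decide)) (hmin _ (by decide))
        (hmin _ (by decide)) (hmin _ (by decide)) m2 m3 m4
      linarith
    · rw [Fin.sum_univ_five, if_pos c20, if_pos c21, if_neg c22, if_neg c23, if_neg c24, if_neg e20,
        G0, G1]
      have := outer_min (p 0) (p 2) (p 1) (p 3) (p 4) d01 d34 d03 d04 (hmin _ (by decide)) (hmin _ (by decide))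
        (hmin _ (by decide)) (hmin _ (by decide)) m1
        (by rcases m3 with h | h
            · left; exact ⟨h.1, h.2.2.1, h.2.1, h.2.2.2⟩
            · right; exact h)
        (by rcases m4 with h | h
            · left; exact ⟨h.1, h.2.2.1, h.2.1, h.2.2.2⟩
            · right; exact h)
      rw [g0_symm'] at this
      linarith
    · rw [Fin.sum_univ_five, if_pos c30, if_neg c31, if_neg c32, if_neg c33, if_pos c34, if_neg e30,
        G0, G4]
      have := outer_min (p 0) (p 3) (p 4) (p 1) (p 2) d04 d12 d01 d02 (hmin _ (by decide)) (hmin _ (by decide))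
        (hmin _ (by decide)) (hmin _ (by decide)) n4' n1' n2'
      rw [g0_symm] at this
      linarith
    · rw [Fin.sum_univ_five, if_pos c40, if_neg c41, if_neg c42, if_pos c43, if_neg c44, if_neg e40,
        G0, G3]
      have := outer_min (p 0) (p 4) (p 3) (p 1) (p 2) d03 d12 d01 d02 (hmin _ (by decide)) (hmin _ (by decide))
        (hmin _ (by decide)) (hmin _ (by decide)) n3'
        (by rcases m1 with h | h
            · left; exact ⟨h.1, h.2.2.2, h.2.2.1, h.2.1⟩
            · right; exact h)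
        (by rcases m2 with h | h
            · left; exact ⟨h.1, h.2.2.2, h.2.2.1, h.2.1⟩
            · right; exact h)
      rw [g0_symm, g0_symm (p 0) (p 1) (p 2) (p 4) (p 3), g0_symm' (p 0) (p 4) (p 3),
        g0_symm] at this
      linarith
  · intro k hk
    have hkk : k = 0 ∨ k = 1 ∨ k = 2 ∨ k = 3 ∨ k = 4 := by clear hk; revert k; decide
    rcases hkk with rfl | rfl | rfl | rfl | rfl
    · rw [Fin.sum_univ_five, if_pos rfl, if_neg (fun h => c00 h.2)]
      simp only [c01, c02, c03, c04, and_true, G0, G1, G2, G3, G4]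
      have := center_nonmin (p 0) (p 1) (p 2) (p 3) (p 4) d01 d02 d03 d04 d12 d34
        (by
          obtain ⟨k', h1, h2⟩ := hE 0 hk
          have : k' = 1 ∨ k' = 2 ∨ k' = 3 ∨ k' = 4 := by
            revert h1; clear h2; revert k'; decide
          rcases this with rfl | rfl | rfl | rfl <;> simp only [h2, true_or, or_true])
        m1 m2
        (by rcases m3 with h | h
            · left; exact ⟨h.1, h.2.1, h.2.2.1, h.2.2.2⟩
            · right; exact h)
        (by rcases m4 with h | h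
            · left; exact ⟨h.1, h.2.1, h.2.2.1, h.2.2.2⟩
            · right; exact h)
      linarith
    · rw [Fin.sum_univ_five, if_neg e10, if_neg (fun h : p 1 < p 1 ∧ coreAdj 1 1 => c11 h.2),
        if_neg (fun h : p 1 < p 3 ∧ coreAdj 1 3 => c13 h.2),
        if_neg (fun h : p 1 < p 4 ∧ coreAdj 1 4 => c14 h.2)]
      simp only [c10, c12, and_true, G0, G1, G2]
      have := outer_nonmin (p 0) (p 1) (p 2) (p 3) (p 4) d01 d02 d03 d04 d12 d34
        (by
          obtain ⟨k', h1, h2⟩ := hE 1 hk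
          have : k' = 0 ∨ k' = 2 := by
            revert h1; clear h2; revert k'; decide
          rcases this with rfl | rfl <;> simp only [h2, true_or, or_true])
        m2 m3 m4
      linarith
    · rw [Fin.sum_univ_five, if_neg e20, if_neg (fun h : p 2 < p 2 ∧ coreAdj 2 2 => c22 h.2),
        if_neg (fun h : p 2 < p 3 ∧ coreAdj 2 3 => c23 h.2),
        if_neg (fun h : p 2 < p 4 ∧ coreAdj 2 4 => c24 h.2)]
      simp only [c20, c21, and_true, G0, G1, G2]
      have := outer_nonmin (p 0) (p 2) (p 1) (p 3) (p 4) d02 d01 d03 d04 d12.symm d34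
        (by
          obtain ⟨k', h1, h2⟩ := hE 2 hk
          have : k' = 0 ∨ k' = 1 := by
            revert h1; clear h2; revert k'; decide
          rcases this with rfl | rfl <;> simp only [h2, true_or, or_true])
        m1
        (by rcases m3 with h | h
            · left; exact ⟨h.1, h.2.2.1, h.2.1, h.2.2.2⟩
            · right; exact h)
        (by rcases m4 with h | h
            · left; exact ⟨h.1, h.2.2.1, h.2.1, h.2.2.2⟩
            · right; exact h)
      rw [g0_symm'] at this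
      linarith
    · rw [Fin.sum_univ_five, if_neg e30, if_neg (fun h : p 3 < p 1 ∧ coreAdj 3 1 => c31 h.2),
        if_neg (fun h : p 3 < p 2 ∧ coreAdj 3 2 => c32 h.2),
        if_neg (fun h : p 3 < p 3 ∧ coreAdj 3 3 => c33 h.2)]
      simp only [c30, c34, and_true, G0, G3, G4]
      have := outer_nonmin (p 0) (p 3) (p 4) (p 1) (p 2) d03 d04 d01 d02 d34 d12
        (by
          obtain ⟨k', h1, h2⟩ := hE 3 hk
          have : k' = 0 ∨ k' = 4 := by
            revert h1; clear h2; revert k'; decide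
          rcases this with rfl | rfl <;> simp only [h2, true_or, or_true])
        n4' n1' n2'
      rw [g0_symm] at this
      linarith
    · rw [Fin.sum_univ_five, if_neg e40, if_neg (fun h : p 4 < p 1 ∧ coreAdj 4 1 => c41 h.2),
        if_neg (fun h : p 4 < p 2 ∧ coreAdj 4 2 => c42 h.2),
        if_neg (fun h : p 4 < p 4 ∧ coreAdj 4 4 => c44 h.2)]
      simp only [c40, c43, and_true, G0, G3, G4]
      have := outer_nonmin (p 0) (p 4) (p 3) (p 1) (p 2) d04 d03 d01 d02 d34.symm d12
        (by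
          obtain ⟨k', h1, h2⟩ := hE 4 hk
          have : k' = 0 ∨ k' = 3 := by
            revert h1; clear h2; revert k'; decide
          rcases this with rfl | rfl <;> simp only [h2, true_or, or_true])
        n3'
        (by rcases m1 with h | h
            · left; exact ⟨h.1, h.2.2.2, h.2.2.1, h.2.1⟩
            · right; exact h)
        (by rcases m2 with h | h
            · left; exact ⟨h.1, h.2.2.2, h.2.2.1, h.2.1⟩
            · right; exact h)
      rw [g0_symm' (p 0) (p 4) (p 3), g0_symm] at this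
      linarith

end Pool.Agent.H107R3.Star
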