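import Mathlib
import Pool.Agent.H107R3.StarRho

set_option autoImplicit false
open Classical

namespace Pool.Agent.H107R3.Star

lemma leaf_adj {q : Fin 4 × Fin 10} {u : V'} (h : H'.Adj u (.inr q)) : u = .inl q.1.succ := by
  rcases u with a | q'
  · have h' : q.1.succ = a := h
    rw [h']
  · exact absurd h (by intro h; exact h)

/-- In a proper ordering, a leaf that is not first comes after its neighbour. -/
lemma leaf_after (pos : V' → ℕ) (v0 : V')
    (hE : ∀ v, v ≠ v0 → ∃ u, H'.Adj u v ∧ pos u < pos v) (q : Fin 4 × Fin 10)
    (hq : (Sum.inr q : V') ≠ v0) : pos (.inl q.1.succ) < pos (.inr q) := by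
  obtain ⟨u, hu1, hu2⟩ := hE _ hq
  rw [leaf_adj hu1] at hu2
  exact hu2

/-- the root of the core -/
def coreRoot : V' → Fin 5
  | .inl a => a
  | .inr q => q.1.succ

lemma core_min (pos : V' → ℕ) (hinj : Function.Injective pos) (v0 : V') (h0 : pos v0 = 0)
    (hE : ∀ v, v ≠ v0 → ∃ u, H'.Adj u v ∧ pos u < pos v) :
    ∀ k, k ≠ coreRoot v0 → pos (.inl (coreRoot v0)) < pos (.inl k) := by
  obtain ⟨ks, hks⟩ := Finite.exists_min (fun k : Fin 5 => pos (.inl k))
  have hkr : ks = coreRoot v0 := by
    by_contra hne
    rcases v0 with a | q0
    · have h1 := hks a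
      rw [h0] at h1
      have h2 : pos (.inl ks) = pos (.inl a) := by omega
      have := hinj h2
      exact hne (Sum.inl_injective this)
    · have hne' : (Sum.inl ks : V') ≠ .inr q0 := by simp
      obtain ⟨u, hu1, hu2⟩ := hE _ hne'
      rcases u with b | q
      · exact absurd (hks b) (not_le.2 hu2)
      · have h1 : q.1.succ = ks := hu1
        have h2 : (Sum.inr q : V') ≠ .inr q0 := by
          intro h
          have h3 := Sum.inr_injective h
          apply hne
          rw [← h1, h3]
          rfl
        have h3 := leaf_after pos _ hE q h2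
        rw [h1] at h3
        omega
  intro k hk
  rw [← hkr]
  rw [← hkr] at hk
  apply lt_of_le_of_ne (hks k)
  intro h
  exact hk (Sum.inl_injective (hinj h)).symm

lemma core_E (pos : V' → ℕ) (v0 : V')
    (hE : ∀ v, v ≠ v0 → ∃ u, H'.Adj u v ∧ pos u < pos v) :
    ∀ k, k ≠ coreRoot v0 → ∃ k', coreAdj k' k ∧ pos (.inl k') < pos (.inl k) := by
  intro k hk
  have h1 : (Sum.inl k : V') ≠ v0 := by
    rintro rfl
    exact hk rfl
  obtain ⟨u, hu1, hu2⟩ := hE _ h1
  rcases u with b | q
  · exact ⟨b, hu1, hu2⟩
  · have h2 : q.1.succ = k := hu1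
    have h3 : (Sum.inr q : V') ≠ v0 := by
      rintro rfl
      exact hk h2.symm
    have h4 := leaf_after pos _ hE q h3
    rw [h2] at h4
    omega

noncomputable def rho (p : Fin 5 → ℕ) (r : Fin 5) : V' → ℝ
  | .inl k => if k = r then 399/100 else gg p k
  | .inr _ => 100/399

lemma rho_pos (p : Fin 5 → ℕ) (r : Fin 5) (v : V') : 0 < rho p r v := by
  rcases v with k | q
  · show 0 < (if k = r then 399/100 else gg p k)
    split_ifs
    · norm_num
    · exact gg_pos _ _
  · show (0:ℝ) < 100/399
    norm_num

theorem rho_exists (pos : V' → ℕ) (hinj : Function.Injective pos) (v0 : V') (h0 : pos v0 = 0)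
    (hE : ∀ v, v ≠ v0 → ∃ u, H'.Adj u v ∧ pos u < pos v) :
    ∃ ρ : V' → ℝ, (∀ v, 0 < ρ v) ∧
      ((∑ u, (if pos v0 < pos u ∧ H'.Adj v0 u then ρ u else 0)) ≤ 399/100) ∧
      (∀ v, v ≠ v0 → 1 / ρ v + (∑ u, (if pos v < pos u ∧ H'.Adj v u then ρ u else 0)) ≤ 399/100) := by
  set p : Fin 5 → ℕ := fun k => pos (.inl k) with hp
  set r := coreRoot v0 with hr
  have hpinj : Function.Injective p := fun a b h => Sum.inl_injective (hinj h)
  have hmin : ∀ k, k ≠ r → p r < p k := core_min pos hinj v0 h0 hE
  have hEc : ∀ k, k ≠ r → ∃ k', coreAdj k' k ∧ p k' < p k := core_E pos v0 hE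
  obtain ⟨c1, c2⟩ := core_cond p hpinj r hmin hEc
  refine ⟨rho p r, rho_pos p r, ?_, ?_⟩
  · -- root condition
    rw [Fintype.sum_sum_type]
    rcases hv : v0 with a | q0
    · have har : a = r := by rw [hr, hv]; rfl
      have e1 : (∑ k : Fin 5, (if pos (.inl a) < pos (.inl k) ∧ H'.Adj (.inl a) (.inl k) then rho p r (.inl k) else 0))
          ≤ ∑ k : Fin 5, (if coreAdj r k then gg p k else 0) := by
        apply Finset.sum_le_sum
        intro k _
        by_cases hk : pos (.inl a) < pos (.inl k) ∧ H'.Adj (.inl a) (.inl k)
        · have hk2 : coreAdj r k := by rw [← har]; exact hk.2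
          have hkr : k ≠ r := by
            rintro rfl
            rw [har] at hk
            exact absurd hk.1 (lt_irrefl _)
          rw [if_pos hk, if_pos hk2]
          show (if k = r then 399/100 else gg p k) ≤ gg p k
          rw [if_neg hkr]
        · rw [if_neg hk]
          split_ifs
          · exact (gg_pos _ _).le
          · exact le_refl _
      have e2 : (∑ q : Fin 4 × Fin 10, (if pos (.inl a) < pos (.inr q) ∧ H'.Adj (.inl a) (.inr q) then rho p r (.inr q) else 0))
          ≤ (if a = 0 then 0 else 1000/399) := by
        refine le_trans (le_of_eq ?_) (leaf_sum a pos)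
        exact Finset.sum_congr rfl fun q _ => if_congr Iff.rfl rfl rfl
      rw [har] at e1 e2 ⊢
      linarith
    · have e1 : (∑ k : Fin 5, (if pos (.inr q0) < pos (.inl k) ∧ H'.Adj (.inr q0) (.inl k) then rho p r (.inl k) else 0))
          ≤ ∑ k : Fin 5, (if q0.1.succ = k then (399/100 : ℝ) else 0) := by
        apply Finset.sum_le_sum
        intro k _
        by_cases hk : pos (.inr q0) < pos (.inl k) ∧ H'.Adj (.inr q0) (.inl k)
        · have hk2 : q0.1.succ = k := hk.2
          rw [if_pos hk, if_pos hk2]
          show (if k = r then 399/100 else gg p k) ≤ 399/100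
          rw [if_pos]
          rw [hr, hv]
          exact hk2.symm
        · rw [if_neg hk]
          split_ifs
          · norm_num
          · exact le_refl _
      rw [Finset.sum_ite_eq, if_pos (Finset.mem_univ _)] at e1
      have e2 : (∑ q : Fin 4 × Fin 10, (if pos (.inr q0) < pos (.inr q) ∧ H'.Adj (.inr q0) (.inr q) then rho p r (.inr q) else 0)) = 0 := by
        apply Finset.sum_eq_zero
        intro q _
        rw [if_neg]
        rintro ⟨_, h⟩
        exact h
      linarith
  · intro v hv
    rw [Fintype.sum_sum_type]
    rcases v with a | q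
    · by_cases har : a = r
      · -- the core root, the first vertex is one of its leaves
        rcases hv0 : v0 with b | q0
        · exfalso
          apply hv
          rw [hv0, har, hr, hv0]
          rfl
        · have hq0 : q0.1.succ = a := by rw [har, hr, hv0]; rfl
          have e1 : (∑ k : Fin 5, (if pos (.inl a) < pos (.inl k) ∧ H'.Adj (.inl a) (.inl k) then rho p r (.inl k) else 0))
              ≤ ∑ k : Fin 5, (if coreAdj r k then gg p k else 0) := by
            apply Finset.sum_le_sum
            intro k _
            by_cases hk : pos (.inl a) < pos (.inl k) ∧ H'.Adj (.inl a) (.inl k)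
            · have hk2 : coreAdj r k := by rw [← har]; exact hk.2
              have hkr : k ≠ r := by
                rintro rfl
                rw [har] at hk
                exact absurd hk.1 (lt_irrefl _)
              rw [if_pos hk, if_pos hk2]
              show (if k = r then 399/100 else gg p k) ≤ gg p k
              rw [if_neg hkr]
            · rw [if_neg hk]
              split_ifs
              · exact (gg_pos _ _).le
              · exact le_refl _
          have e2 : (∑ q : Fin 4 × Fin 10, (if pos (.inl a) < pos (.inr q) ∧ H'.Adj (.inl a) (.inr q) then rho p r (.inr q) else 0))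
              ≤ 900/399 := by
            refine le_trans (le_of_eq ?_) (leaf_sum' a pos q0 hq0 (by rw [← hv0]; exact h0))
            exact Finset.sum_congr rfl fun q _ => if_congr Iff.rfl rfl rfl
          have hr0 : r ≠ 0 := by rw [← har, ← hq0]; exact Fin.succ_ne_zero _
          rw [if_neg hr0] at c1
          have e3 : rho p r (.inl a) = 399/100 := by
            show (if a = r then 399/100 else gg p a) = 399/100
            rw [if_pos har]
          rw [e3]
          linarith
      · have e0 : rho p r (.inl a) = gg p a := by
          show (if a = r then 399/100 else gg p a) = gg p a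
          rw [if_neg har]
        have e1 : (∑ k : Fin 5, (if pos (.inl a) < pos (.inl k) ∧ H'.Adj (.inl a) (.inl k) then rho p r (.inl k) else 0))
            ≤ ∑ k : Fin 5, (if p a < p k ∧ coreAdj a k then gg p k else 0) := by
          apply Finset.sum_le_sum
          intro k _
          by_cases hk : pos (.inl a) < pos (.inl k) ∧ H'.Adj (.inl a) (.inl k)
          · have hk2 : p a < p k ∧ coreAdj a k := hk
            have hkr : k ≠ r := by
              rintro rfl
              have := hmin a har
              omega
            rw [if_pos hk, if_pos hk2]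
            show (if k = r then 399/100 else gg p k) ≤ gg p k
            rw [if_neg hkr]
          · rw [if_neg hk]
            split_ifs
            · exact (gg_pos _ _).le
            · exact le_refl _
        have e2 : (∑ q : Fin 4 × Fin 10, (if pos (.inl a) < pos (.inr q) ∧ H'.Adj (.inl a) (.inr q) then rho p r (.inr q) else 0))
            ≤ (if a = 0 then 0 else 1000/399) := by
          refine le_trans (le_of_eq ?_) (leaf_sum a pos)
          exact Finset.sum_congr rfl fun q _ => if_congr Iff.rfl rfl rfl
        have := c2 a har
        rw [e0]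
        linarith
    · have h1 := leaf_after pos v0 hE q hv
      have e1 : (∑ k : Fin 5, (if pos (.inr q) < pos (.inl k) ∧ H'.Adj (.inr q) (.inl k) then rho p r (.inl k) else 0)) = 0 := by
        apply Finset.sum_eq_zero
        intro k _
        rw [if_neg]
        rintro ⟨h2, h3⟩
        have h4 : q.1.succ = k := h3
        rw [h4] at h1
        omega
      have e2 : (∑ q' : Fin 4 × Fin 10, (if pos (.inr q) < pos (.inr q') ∧ H'.Adj (.inr q) (.inr q') then rho p r (.inr q') else 0)) = 0 := by
        apply Finset.sum_eq_zero
        intro q' _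
        rw [if_neg]
        rintro ⟨_, h⟩
        exact h
      rw [e1, e2]
      show 1 / (100/399 : ℝ) + (0 + 0) ≤ 399/100
      norm_num

end Pool.Agent.H107R3.Star
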