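import Mathlib
import Pool.Agent.H107R3.StarExists
import Pool.Agent.H107R3.StarBound

set_option autoImplicit false
open Classical

namespace Pool.Agent.H107R3.Star

/-- the vertex numbering -/
def ee : Fin (43+2) ≃ V' :=
  ((finCongr (by norm_num : 43+2 = 5+4*10)).trans finSumFinEquiv.symm).trans
    (Equiv.sumCongr (Equiv.refl (Fin 5)) finProdFinEquiv.symm)

/-- The graph: bow-tie with ten pendant vertices at each outer vertex. -/
def HH : SimpleGraph (Fin (43+2)) := H'.comap ee

lemma HH_adj (i j : Fin (43+2)) : HH.Adj i j ↔ H'.Adj (ee i) (ee j) := Iff.rfl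

lemma H'_conn : H'.Connected := by
  have h0 : ∀ k : Fin 5, H'.Reachable (.inl k) (.inl 0) := by
    intro k
    by_cases hk : k = 0
    · rw [hk]
    · apply SimpleGraph.Adj.reachable
      show coreAdj k 0
      right; left
      exact ⟨hk, rfl⟩
  have h1 : ∀ v : V', H'.Reachable v (.inl 0) := by
    rintro (k | q)
    · exact h0 k
    · have : H'.Adj (.inr q) (.inl q.1.succ) := (rfl : q.1.succ = q.1.succ)
      exact this.reachable.trans (h0 _)
  have : Nonempty V' := ⟨.inl 0⟩
  exact ⟨fun u v => (h1 u).trans (h1 v).symm⟩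

lemma HH_conn : HH.Connected :=
  (SimpleGraph.Iso.connected_iff (SimpleGraph.Iso.comap ee H')).2 H'_conn

lemma HH_rho (f : Equiv.Perm (Fin (43+2)))
    (hE : ∀ v, v ≠ f 0 → ∃ u, HH.Adj u v ∧ f.symm u < f.symm v) :
      ∃ r : Fin (43+2) → ℝ, (∀ m, 0 < r m) ∧
        ((∑ m, (if (0 : Fin (43+2)) < m ∧ HH.Adj (f 0) (f m) then r m else 0)) ≤ 399/100) ∧
        (∀ k, k ≠ 0 → 1 / r k + (∑ m, (if k < m ∧ HH.Adj (f k) (f m) then r m else 0)) ≤ 399/100) := by
  set pos : V' → ℕ := fun v => (f.symm (ee.symm v)).val with hpos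
  have hinj : Function.Injective pos := by
    intro u v h
    have := Fin.ext h
    exact ee.symm.injective (f.symm.injective this)
  have hp : ∀ m, pos (ee (f m)) = m.val := by
    intro m
    simp [hpos]
  obtain ⟨ρ, h1, h2, h3⟩ := rho_exists pos hinj (ee (f 0)) (by rw [hp]; rfl) (by
    intro v hv
    have hv' : ee.symm v ≠ f 0 := by
      intro h
      apply hv
      rw [← h, Equiv.apply_symm_apply]
    obtain ⟨u, hu1, hu2⟩ := hE _ hv'
    refine ⟨ee u, ?_, ?_⟩
    · rw [HH_adj, Equiv.apply_symm_apply] at hu1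
      exact hu1
    · show (f.symm (ee.symm (ee u))).val < (f.symm (ee.symm v)).val
      rw [Equiv.symm_apply_apply]
      exact hu2)
  have hsum : ∀ k : Fin (43+2), (∑ m, (if k < m ∧ HH.Adj (f k) (f m) then ρ (ee (f m)) else 0)) =
      ∑ u, (if pos (ee (f k)) < pos u ∧ H'.Adj (ee (f k)) u then ρ u else 0) := by
    intro k
    apply Fintype.sum_equiv (f.trans ee)
    intro m
    show _ = (if pos (ee (f k)) < pos (ee (f m)) ∧ H'.Adj (ee (f k)) (ee (f m)) then ρ (ee (f m)) else 0)
    rw [hp, hp]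
    exact if_congr Iff.rfl rfl rfl
  refine ⟨fun m => ρ (ee (f m)), fun m => h1 _, ?_, ?_⟩
  · rw [hsum]; exact h2
  · intro k hk
    rw [hsum]
    apply h3
    intro h
    exact hk (f.injective (ee.injective h))

/-! ### the blow-up -/

def badc (s : Fin 16) (b : Fin 5) (t : Fin 16) : Prop :=
  ((s.val < 8 ∧ (b = 1 ∨ b = 2)) ∨ (8 ≤ s.val ∧ (b = 3 ∨ b = 4))) ∧ (t.val = 10 ∨ t.val = 11)

instance (s : Fin 16) (b : Fin 5) (t : Fin 16) : Decidable (badc s b t) := by
  unfold badc; infer_instance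

def badcore (a b : Fin 5) (s t : Fin 16) : Prop :=
  (a = 0 ∧ badc s b t) ∨ (b = 0 ∧ badc t a s) ∨ (a ≠ 0 ∧ b ≠ 0 ∧ 12 ≤ s.val ∧ 12 ≤ t.val)

instance (a b : Fin 5) (s t : Fin 16) : Decidable (badcore a b s t) := by
  unfold badcore; infer_instance

def bad : V' → V' → Fin 16 → Fin 16 → Prop
  | .inl a, .inl b, s, t => badcore a b s t
  | .inl _, .inr q, s, _ => s.val = q.2.val
  | .inr q, .inl _, _, t => t.val = q.2.val
  | .inr _, .inr _, _, _ => False

lemma bad_symm (u v : V') (s t : Fin 16) (h : bad u v s t) : bad v u t s := by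
  rcases u with a | q <;> rcases v with b | q' <;> simp only [bad] at h ⊢
  · rcases h with h | h | h
    · right; left; exact h
    · left; exact h
    · right; right; exact ⟨h.2.1, h.1, h.2.2.2, h.2.2.1⟩
  · exact h
  · exact h

lemma count_core : ∀ a b : Fin 5, coreAdj a b →
    (Finset.univ.filter (fun st : Fin 16 × Fin 16 => ¬ badcore a b st.1 st.2)).card = 240 := by
  decide +kernel

lemma count_leaf1 : ∀ i : Fin 10,
    (Finset.univ.filter (fun st : Fin 16 × Fin 16 => ¬ (st.1.val = i.val))).card = 240 := by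
  decide +kernel

lemma count_leaf2 : ∀ i : Fin 10,
    (Finset.univ.filter (fun st : Fin 16 × Fin 16 => ¬ (st.2.val = i.val))).card = 240 := by
  decide +kernel

lemma count_all (u v : V') (h : H'.Adj u v) :
    Nat.card {st : Fin 16 × Fin 16 // ¬ bad u v st.1 st.2} = 240 := by
  rcases u with a | q <;> rcases v with b | q'
  · rw [← count_core a b h]
    rw [Nat.card_eq_fintype_card, Fintype.card_subtype]
    exact congrArg Finset.card (Finset.filter_congr fun x _ => Iff.rfl)
  · rw [← count_leaf1 q'.2]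
    rw [Nat.card_eq_fintype_card, Fintype.card_subtype]
    exact congrArg Finset.card (Finset.filter_congr fun x _ => Iff.rfl)
  · rw [← count_leaf2 q.2]
    rw [Nat.card_eq_fintype_card, Fintype.card_subtype]
    exact congrArg Finset.card (Finset.filter_congr fun x _ => Iff.rfl)
  · exact absurd h (fun h => h)

/-- decoding of blow-up vertices -/
def dd : Fin ((43+2)*16) ≃ Fin (43+2) × Fin 16 := finProdFinEquiv.symm

def GG : SimpleGraph (Fin ((43+2)*16)) where
  Adj x y := HH.Adj (dd x).1 (dd y).1 ∧ ¬ bad (ee (dd x).1) (ee (dd y).1) (dd x).2 (dd y).2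
  symm := ⟨by
    intro x y h
    exact ⟨h.1.symm, fun h' => h.2 (bad_symm _ _ _ _ h')⟩⟩
  loopless := ⟨by
    intro x h
    exact HH.loopless.irrefl _ h.1⟩

lemma card_cluster (i : Fin (43+2)) : Nat.card {x : Fin ((43+2)*16) // (dd x).1 = i} = 16 := by
  have e : {x : Fin ((43+2)*16) // (dd x).1 = i} ≃ Fin 16 :=
    { toFun := fun x => (dd x.1).2
      invFun := fun s => ⟨dd.symm (i, s), by rw [Equiv.apply_symm_apply]⟩
      left_inv := by
        rintro ⟨x, hx⟩
        apply Subtype.ext
        show dd.symm (i, (dd x).2) = x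
        rw [← hx]
        exact Equiv.symm_apply_apply _ _
      right_inv := by
        intro s
        show (dd (dd.symm (i, s))).2 = s
        rw [Equiv.apply_symm_apply] }
  rw [Nat.card_congr e]
  simp

lemma card_pairs (i j : Fin (43+2)) (h : HH.Adj i j) :
    Nat.card {p : Fin ((43+2)*16) × Fin ((43+2)*16) // (dd p.1).1 = i ∧ (dd p.2).1 = j ∧ GG.Adj p.1 p.2} = 240 := by
  rw [← count_all (ee i) (ee j) h]
  apply Nat.card_congr
  exact
    { toFun := fun p => ⟨((dd p.1.1).2, (dd p.1.2).2), by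
        have := p.2.2.2.2
        rw [p.2.1, p.2.2.1] at this
        exact this⟩
      invFun := fun st => ⟨(dd.symm (i, st.1.1), dd.symm (j, st.1.2)), by
        refine ⟨by simp, by simp, ?_, ?_⟩
        · simp only [Equiv.apply_symm_apply]; exact h
        · simp only [Equiv.apply_symm_apply]; exact st.2⟩
      left_inv := by
        rintro ⟨⟨x, y⟩, hx, hy, hxy⟩
        apply Subtype.ext
        show (dd.symm (i, (dd x).2), dd.symm (j, (dd y).2)) = (x, y)
        simp only at hx hy
        rw [← hx, ← hy]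
        simp
      right_inv := by
        rintro ⟨⟨s, t⟩, hst⟩
        apply Subtype.ext
        show ((dd (dd.symm (i, s))).2, (dd (dd.symm (j, t))).2) = (s, t)
        simp }

lemma no_transversal (s : V' → Fin 16)
    (hs : ∀ u v, H'.Adj u v → ¬ bad u v (s u) (s v)) : False := by
  have h10 : ∀ k : Fin 4, 10 ≤ (s (.inl k.succ)).val := by
    intro k
    by_contra hlt
    push Not at hlt
    have h1 : H'.Adj (.inl k.succ) (.inr (k, ⟨(s (.inl k.succ)).val, hlt⟩)) :=
      (rfl : k.succ = k.succ)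
    exact hs _ _ h1 rfl
  have a01 : H'.Adj (.inl 0) (.inl 1) := (by decide : coreAdj 0 1)
  have a02 : H'.Adj (.inl 0) (.inl 2) := (by decide : coreAdj 0 2)
  have a03 : H'.Adj (.inl 0) (.inl 3) := (by decide : coreAdj 0 3)
  have a04 : H'.Adj (.inl 0) (.inl 4) := (by decide : coreAdj 0 4)
  have a12 : H'.Adj (.inl 1) (.inl 2) := (by decide : coreAdj 1 2)
  have a34 : H'.Adj (.inl 3) (.inl 4) := (by decide : coreAdj 3 4)
  have t1 := h10 0
  have t2 := h10 1
  have t3 := h10 2
  have t4 := h10 3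
  have e1 : (0 : Fin 4).succ = 1 := rfl
  have e2 : (1 : Fin 4).succ = 2 := rfl
  have e3 : (2 : Fin 4).succ = 3 := rfl
  have e4 : (3 : Fin 4).succ = 4 := rfl
  rw [e1] at t1
  rw [e2] at t2
  rw [e3] at t3
  rw [e4] at t4
  rcases Nat.lt_or_ge (s (.inl 0)).val 8 with hc | hc
  · have b1 : 12 ≤ (s (.inl 1)).val := by
      by_contra hlt
      apply hs _ _ a01
      show badcore 0 1 _ _
      left
      exact ⟨rfl, Or.inl ⟨hc, Or.inl rfl⟩, by omega⟩
    have b2 : 12 ≤ (s (.inl 2)).val := by
      by_contra hlt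
      apply hs _ _ a02
      show badcore 0 2 _ _
      left
      exact ⟨rfl, Or.inl ⟨hc, Or.inr rfl⟩, by omega⟩
    apply hs _ _ a12
    show badcore 1 2 _ _
    right; right
    exact ⟨by decide, by decide, b1, b2⟩
  · have b1 : 12 ≤ (s (.inl 3)).val := by
      by_contra hlt
      apply hs _ _ a03
      show badcore 0 3 _ _
      left
      exact ⟨rfl, Or.inr ⟨hc, Or.inl rfl⟩, by omega⟩
    have b2 : 12 ≤ (s (.inl 4)).val := by
      by_contra hlt
      apply hs _ _ a04
      show badcore 0 4 _ _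
      left
      exact ⟨rfl, Or.inr ⟨hc, Or.inr rfl⟩, by omega⟩
    apply hs _ _ a34
    show badcore 3 4 _ _
    right; right
    exact ⟨by decide, by decide, b1, b2⟩

end Pool.Agent.H107R3.Star
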